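import Mathlib

open MeasureTheory Filter Topology Set Metric
open scoped ENNReal NNReal InnerProductSpace

set_option linter.unusedSectionVars false

namespace Pool.Agent.Results.MP_e9cb08_gt.BoundaryInequality

/-! ### One-dimensional lemmas -/

lemma lintegral_deriv_mono {g : ℝ → ℝ} {a b : ℝ} (hab : a ≤ b) (hg : MonotoneOn g (Icc a b)) :
    ∫⁻ t in Icc a b, ‖deriv g t‖ₑ ≤ ENNReal.ofReal (g b - g a) := by
  set s : Set ℝ := Ioo a b ∩ {x | DifferentiableAt ℝ g x} with hs
  have hsm : MeasurableSet s := measurableSet_Ioo.inter (measurableSet_of_differentiableAt ℝ g)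
  have hsub : s ⊆ Icc a b := fun x hx => Ioo_subset_Icc_self hx.1
  have h1 : ∫⁻ t in Icc a b, ‖deriv g t‖ₑ = ∫⁻ t in Ioo a b, ‖deriv g t‖ₑ :=
    setLIntegral_congr Ioo_ae_eq_Icc.symm
  have h2 : ∫⁻ t in Ioo a b, ‖deriv g t‖ₑ = ∫⁻ t in s, ENNReal.ofReal (deriv g t) := by
    rw [← lintegral_indicator measurableSet_Ioo, ← lintegral_indicator hsm]
    refine lintegral_congr fun t => ?_
    by_cases ht : t ∈ Ioo a b
    · rw [indicator_of_mem ht]
      by_cases hd : DifferentiableAt ℝ g t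
      · rw [indicator_of_mem (show t ∈ s from ⟨ht, hd⟩)]
        have h3 : 0 ≤ deriv g t := by
          have h4 : derivWithin g (Icc a b) t = deriv g t := by
            rw [derivWithin_of_mem_nhds (Icc_mem_nhds ht.1 ht.2)]
          rw [← h4]
          exact hg.derivWithin_nonneg
        rw [Real.enorm_eq_ofReal h3]
      · rw [indicator_of_notMem (fun h => hd h.2), deriv_zero_of_not_differentiableAt hd]
        simp
    · rw [indicator_of_notMem ht, indicator_of_notMem (fun h => ht h.1)]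
  rw [h1, h2, lintegral_deriv_eq_volume_image_of_monotoneOn hsm
    (fun x hx => hx.2.hasDerivAt.hasDerivWithinAt) (hg.mono hsub)]
  calc volume (g '' s) ≤ volume (Icc (g a) (g b)) := by
        refine measure_mono ?_
        rintro _ ⟨x, hx, rfl⟩
        have hx' := hsub hx
        exact ⟨hg (left_mem_Icc.2 hab) hx' hx'.1, hg hx' (right_mem_Icc.2 hab) hx'.2⟩
    _ = ENNReal.ofReal (g b - g a) := Real.volume_Icc

lemma lintegral_deriv_anti {g : ℝ → ℝ} {a b : ℝ} (hab : a ≤ b) (hg : AntitoneOn g (Icc a b)) :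
    ∫⁻ t in Icc a b, ‖deriv g t‖ₑ ≤ ENNReal.ofReal (g a - g b) := by
  have h := lintegral_deriv_mono (g := fun t => -g t) hab (fun x hx y hy hxy => by
    have := hg hx hy hxy
    simpa using this)
  have h1 : ∀ t, ‖deriv (fun t => -g t) t‖ₑ = ‖deriv g t‖ₑ := by
    intro t
    rw [deriv.fun_neg, enorm_neg]
  simp only [h1] at h
  refine h.trans (le_of_eq ?_)
  congr 1
  ring

/-- The total variation of a nonnegative convex function. -/
lemma lintegral_deriv_convex {g : ℝ → ℝ} (hg : ConvexOn ℝ univ g) (h0 : ∀ t, 0 ≤ g t) {a b : ℝ}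
    (hab : a ≤ b) : ∫⁻ t in Icc a b, ‖deriv g t‖ₑ ≤ ENNReal.ofReal (g a) + ENNReal.ofReal (g b) := by
  have hcont : ContinuousOn g (Icc a b) :=
    (hg.continuousOn isOpen_univ).mono (subset_univ _)
  obtain ⟨m, hm, hmin⟩ := isCompact_Icc.exists_isMinOn (nonempty_Icc.2 hab) hcont
  have hmin' : ∀ x ∈ Icc a b, g m ≤ g x := fun x hx => hmin hx
  have hmono : MonotoneOn g (Icc m b) := by
    intro x hx y hy hxy
    have h1 : g x ≤ max (g m) (g y) := by
      have h2 : x ∈ segment ℝ m y := by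
        rw [segment_eq_Icc (hx.1.trans hxy)]
        exact ⟨hx.1, hxy⟩
      exact hg.le_on_segment (mem_univ _) (mem_univ _) h2
    have h3 : g m ≤ g y := hmin' y ⟨hm.1.trans hy.1, hy.2⟩
    rwa [max_eq_right h3] at h1
  have hanti : AntitoneOn g (Icc a m) := by
    intro x hx y hy hxy
    have h1 : g y ≤ max (g x) (g m) := by
      have h2 : y ∈ segment ℝ x m := by
        rw [segment_eq_Icc (hxy.trans hy.2)]
        exact ⟨hxy, hy.2⟩
      exact hg.le_on_segment (mem_univ _) (mem_univ _) h2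
    have h3 : g m ≤ g x := hmin' x ⟨hx.1, hx.2.trans hm.2⟩
    rwa [max_eq_left h3] at h1
  calc ∫⁻ t in Icc a b, ‖deriv g t‖ₑ ≤ ∫⁻ t in Icc a m ∪ Icc m b, ‖deriv g t‖ₑ := by
        refine lintegral_mono_set ?_
        rw [Icc_union_Icc_eq_Icc hm.1 hm.2]
    _ ≤ (∫⁻ t in Icc a m, ‖deriv g t‖ₑ) + ∫⁻ t in Icc m b, ‖deriv g t‖ₑ :=
        lintegral_union_le _ _ _
    _ ≤ ENNReal.ofReal (g a - g m) + ENNReal.ofReal (g b - g m) :=
        add_le_add (lintegral_deriv_anti hm.1 hanti) (lintegral_deriv_mono hm.2 hmono)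
    _ ≤ ENNReal.ofReal (g a) + ENNReal.ofReal (g b) :=
        add_le_add (ENNReal.ofReal_le_ofReal (by linarith [h0 m]))
          (ENNReal.ofReal_le_ofReal (by linarith [h0 m]))

/-- Hermite–Hadamard. -/
lemma lintegral_convex {g : ℝ → ℝ} (hg : ConvexOn ℝ univ g) (h0 : ∀ t, 0 ≤ g t) {a b : ℝ}
    (hab : a ≤ b) :
    2 * ∫⁻ t in Icc a b, ENNReal.ofReal (g t) ≤ ENNReal.ofReal ((b - a) * (g a + g b)) := by
  have hmeas : Measurable g := (continuousOn_univ.1 (hg.continuousOn isOpen_univ)).measurable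
  have hsymm : ∫⁻ t in Icc a b, ENNReal.ofReal (g t)
      = ∫⁻ t in Icc a b, ENNReal.ofReal (g (a + b - t)) := by
    have hmp : MeasurePreserving (fun t : ℝ => a + b - t) volume volume :=
      Measure.measurePreserving_sub_left volume (a + b)
    have h1 := hmp.setLIntegral_comp_preimage (s := Icc a b)
      (f := fun t => ENNReal.ofReal (g t)) measurableSet_Icc (by fun_prop)
    have h2 : (fun t : ℝ => a + b - t) ⁻¹' Icc a b = Icc a b := by
      ext t
      simp only [mem_preimage, mem_Icc]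
      constructor <;> rintro ⟨h3, h4⟩ <;> constructor <;> linarith
    rw [h2] at h1
    exact h1.symm
  rw [two_mul]
  nth_rw 2 [hsymm]
  rw [← lintegral_add_left (by fun_prop)]
  calc ∫⁻ t in Icc a b, (ENNReal.ofReal (g t) + ENNReal.ofReal (g (a + b - t)))
      ≤ ∫⁻ _ in Icc a b, ENNReal.ofReal (g a + g b) := by
        refine setLIntegral_mono' measurableSet_Icc fun t ht => ?_
        rw [← ENNReal.ofReal_add (h0 _) (h0 _)]
        refine ENNReal.ofReal_le_ofReal ?_
        rcases hab.eq_or_lt with h | h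
        · subst h
          have : t = a := le_antisymm ht.2 ht.1
          subst this
          simp
        · have hpos : 0 < b - a := by linarith
          set θ := (t - a) / (b - a) with hθ
          have hθ0 : 0 ≤ θ := div_nonneg (by linarith [ht.1]) hpos.le
          have hθ1 : θ ≤ 1 := by
            rw [hθ, div_le_one hpos]
            linarith [ht.2]
          have e1 : (1 - θ) • a + θ • b = t := by
            simp only [smul_eq_mul, hθ]
            field_simp
            ring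
          have e2 : θ • a + (1 - θ) • b = a + b - t := by
            rw [← e1]
            simp only [smul_eq_mul]
            ring
          have c1 := hg.2 (mem_univ a) (mem_univ b) (show 0 ≤ 1 - θ by linarith) hθ0 (by ring)
          have c2 := hg.2 (mem_univ a) (mem_univ b) hθ0 (show 0 ≤ 1 - θ by linarith) (by ring)
          rw [e1] at c1
          rw [e2] at c2
          simp only [smul_eq_mul] at c1 c2
          linarith
    _ = ENNReal.ofReal ((b - a) * (g a + g b)) := by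
        rw [setLIntegral_const, Real.volume_Icc, ← ENNReal.ofReal_mul (by linarith [h0 a, h0 b]),
          mul_comm]

/-! ### Lines in a direction -/

section Lines

variable {V : Type*} [NormedAddCommGroup V] [InnerProductSpace ℝ V] [FiniteDimensional ℝ V]
  [MeasurableSpace V] [BorelSpace V]

/-- Fubini's theorem along the lines of direction `u`. -/
lemma lintegral_lines {u : V} (hu : ‖u‖ = 1) {F : V → ℝ≥0∞} (hF : Measurable F) :
    ∫⁻ v, F v = ∫⁻ x : (ℝ ∙ u)ᗮ, ∫⁻ t : ℝ, F ((x : V) + t • u) := by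
  set s : Submodule ℝ V := ℝ ∙ u with hs
  have mp := (s.measurePreserving_measurableEquivProd (0 : V)).symm
  rw [InnerProductSpace.euclideanHausdorffMeasure_eq_volume] at mp
  rw [← mp.lintegral_comp hF]
  rw [Measure.volume_eq_prod,
    lintegral_prod_symm' (fun q => F ((s.measurableEquivProd 0).symm q))
      (hF.comp (MeasurableEquiv.measurable _))]
  refine lintegral_congr fun x => ?_
  have hφ := (LinearIsometryEquiv.toSpanUnitSingleton (𝕜 := ℝ) u hu).measurePreserving
  rw [← hφ.lintegral_comp]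
  · refine lintegral_congr fun t => ?_
    congr 1
    simp [add_comm]
  · exact hF.comp ((MeasurableEquiv.measurable _).comp (by fun_prop))

/-- The (parameters of the) intersection of `C` with the line through `x` of direction `u`. -/
def sec (C : Set V) (u : V) (x : (ℝ ∙ u)ᗮ) : Set ℝ := {t | (x : V) + t • u ∈ C}

/-- The upper end of `sec`. -/
noncomputable def topE (C : Set V) (u : V) (x : (ℝ ∙ u)ᗮ) : ℝ := sSup (sec C u x)

/-- The lower end of `sec`. -/
noncomputable def botE (C : Set V) (u : V) (x : (ℝ ∙ u)ᗮ) : ℝ := sInf (sec C u x)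

lemma inner_line {u : V} (hu : ‖u‖ = 1) (x : (ℝ ∙ u)ᗮ) (t : ℝ) : ⟪u, (x : V) + t • u⟫_ℝ = t := by
  have h1 : ⟪u, (x : V)⟫_ℝ = 0 := by
    have := x.2
    rw [Submodule.mem_orthogonal_singleton_iff_inner_right] at this
    exact this
  rw [inner_add_right, h1, inner_smul_right, real_inner_self_eq_norm_sq, hu]
  ring

lemma proj_line {u : V} (x : (ℝ ∙ u)ᗮ) (t : ℝ) :
    (ℝ ∙ u)ᗮ.orthogonalProjectionOnto ((x : V) + t • u) = x := by
  rw [map_add]
  have h1 : (ℝ ∙ u)ᗮ.orthogonalProjectionOnto (t • u) = 0 := by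
    rw [Submodule.orthogonalProjectionOnto_eq_zero_iff, Submodule.orthogonal_orthogonal]
    exact Submodule.smul_mem _ _ (Submodule.mem_span_singleton_self u)
  rw [h1, add_zero]
  simp

lemma decomp_line {u : V} (hu : ‖u‖ = 1) (y : V) :
    (((ℝ ∙ u)ᗮ.orthogonalProjectionOnto y : (ℝ ∙ u)ᗮ) : V) + ⟪u, y⟫_ℝ • u = y := by
  have h1 := Submodule.starProjection_add_starProjection_orthogonal (K := ℝ ∙ u) y
  rw [Submodule.starProjection_unit_singleton ℝ hu] at h1
  rw [← Submodule.starProjection_apply, add_comm]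
  exact h1

lemma sec_compact {C : Set V} (hC : IsCompact C) {u : V} (hu : ‖u‖ = 1) (x : (ℝ ∙ u)ᗮ) :
    IsCompact (sec C u x) := by
  have h1 : sec C u x ⊆ (fun y => ⟪u, y⟫_ℝ) '' C := by
    intro t ht
    exact ⟨_, ht, inner_line hu x t⟩
  have h2 : IsCompact ((fun y => ⟪u, y⟫_ℝ) '' C) := hC.image (by fun_prop)
  refine h2.of_isClosed_subset ?_ h1
  exact hC.isClosed.preimage (by fun_prop : Continuous fun t : ℝ => (x : V) + t • u)

lemma sec_convex {C : Set V} (hCc : Convex ℝ C) {u : V} (x : (ℝ ∙ u)ᗮ) :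
    Convex ℝ (sec C u x) := by
  intro s hs t ht a b ha hb hab
  show (x : V) + (a • s + b • t) • u ∈ C
  have h1 := hCc hs ht ha hb hab
  have h2 : a • ((x : V) + s • u) + b • ((x : V) + t • u) = (x : V) + (a • s + b • t) • u := by
    have : (x : V) = (a + b) • (x : V) := by rw [hab, one_smul]
    nth_rw 3 [this]
    simp only [smul_add, add_smul, smul_smul, smul_eq_mul]
    abel
  rwa [h2] at h1

lemma sec_eq_Icc {C : Set V} (hC : IsCompact C) (hCc : Convex ℝ C) {u : V} (hu : ‖u‖ = 1)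
    (x : (ℝ ∙ u)ᗮ) (hne : (sec C u x).Nonempty) : sec C u x = Icc (botE C u x) (topE C u x) :=
  eq_Icc_of_connected_compact ⟨hne, (sec_convex hCc x).isPreconnected⟩ (sec_compact hC hu x)

lemma measurable_topE {C : Set V} (hC : IsCompact C) {u : V} (hu : ‖u‖ = 1) :
    Measurable (topE C u) := by
  have hcl : ∀ c : ℝ, IsCompact ((fun y => (ℝ ∙ u)ᗮ.orthogonalProjectionOnto y) ''
      (C ∩ {y | c ≤ ⟪u, y⟫_ℝ})) := fun c =>
    (hC.inter_right (isClosed_le continuous_const (by fun_prop))).image (by fun_prop)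
  have hP : IsCompact ((fun y => (ℝ ∙ u)ᗮ.orthogonalProjectionOnto y) '' C) :=
    hC.image (by fun_prop)
  refine measurable_of_Ici fun c => ?_
  have h1 : topE C u ⁻¹' Ici c = ((fun y => (ℝ ∙ u)ᗮ.orthogonalProjectionOnto y) ''
      (C ∩ {y | c ≤ ⟪u, y⟫_ℝ})) ∪ (((fun y => (ℝ ∙ u)ᗮ.orthogonalProjectionOnto y) '' C)ᶜ ∩
        {_x | c ≤ 0}) := by
    ext x
    simp only [mem_preimage, mem_Ici, mem_union, mem_inter_iff, mem_compl_iff]
    by_cases hx : x ∈ (fun y => (ℝ ∙ u)ᗮ.orthogonalProjectionOnto y) '' C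
    · have hne : (sec C u x).Nonempty := by
        obtain ⟨y, hy, rfl⟩ := hx
        refine ⟨⟪u, y⟫_ℝ, ?_⟩
        show _ ∈ C
        rw [decomp_line hu]
        exact hy
      constructor
      · intro h
        left
        have h2 := (sec_compact hC hu x).sSup_mem hne
        exact ⟨_, ⟨h2, by
          show c ≤ _
          rw [inner_line hu]; exact h⟩, proj_line _ _⟩
      · rintro (⟨y, ⟨hy, hyc⟩, hyx⟩ | ⟨h, -⟩)
        · refine le_trans hyc (le_csSup (sec_compact hC hu x).bddAbove ?_)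
          show _ ∈ C
          rw [← hyx]
          show _ + _ ∈ C
          rw [decomp_line hu]
          exact hy
        · exact absurd hx h
    · have hemp : sec C u x = ∅ := by
        rw [eq_empty_iff_forall_notMem]
        intro t ht
        exact hx ⟨_, ht, proj_line _ _⟩
      have h0 : topE C u x = 0 := by
        rw [topE, hemp, Real.sSup_empty]
      rw [h0]
      constructor
      · intro h
        exact Or.inr ⟨hx, h⟩
      · rintro (⟨y, ⟨hy, hyc⟩, hyx⟩ | ⟨h, h'⟩)
        · exact absurd ⟨y, hy, hyx⟩ hx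
        · exact h'
  rw [h1]
  exact (hcl c).isClosed.measurableSet.union (hP.isClosed.measurableSet.compl.inter
    (MeasurableSet.const _))

lemma measurable_botE {C : Set V} (hC : IsCompact C) {u : V} (hu : ‖u‖ = 1) :
    Measurable (botE C u) := by
  have hcl : ∀ c : ℝ, IsCompact ((fun y => (ℝ ∙ u)ᗮ.orthogonalProjectionOnto y) ''
      (C ∩ {y | ⟪u, y⟫_ℝ ≤ c})) := fun c =>
    (hC.inter_right (isClosed_le (by fun_prop) continuous_const)).image (by fun_prop)
  have hP : IsCompact ((fun y => (ℝ ∙ u)ᗮ.orthogonalProjectionOnto y) '' C) :=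
    hC.image (by fun_prop)
  refine measurable_of_Iic fun c => ?_
  have h1 : botE C u ⁻¹' Iic c = ((fun y => (ℝ ∙ u)ᗮ.orthogonalProjectionOnto y) ''
      (C ∩ {y | ⟪u, y⟫_ℝ ≤ c})) ∪ (((fun y => (ℝ ∙ u)ᗮ.orthogonalProjectionOnto y) '' C)ᶜ ∩
        {_x | 0 ≤ c}) := by
    ext x
    simp only [mem_preimage, mem_Iic, mem_union, mem_inter_iff, mem_compl_iff]
    by_cases hx : x ∈ (fun y => (ℝ ∙ u)ᗮ.orthogonalProjectionOnto y) '' C
    · have hne : (sec C u x).Nonempty := by
        obtain ⟨y, hy, rfl⟩ := hx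
        refine ⟨⟪u, y⟫_ℝ, ?_⟩
        show _ ∈ C
        rw [decomp_line hu]
        exact hy
      constructor
      · intro h
        left
        have h2 := (sec_compact hC hu x).sInf_mem hne
        exact ⟨_, ⟨h2, by
          show _ ≤ c
          rw [inner_line hu]; exact h⟩, proj_line _ _⟩
      · rintro (⟨y, ⟨hy, hyc⟩, hyx⟩ | ⟨h, -⟩)
        · refine le_trans (csInf_le (sec_compact hC hu x).bddBelow ?_) hyc
          show _ ∈ C
          rw [← hyx]
          show _ + _ ∈ C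
          rw [decomp_line hu]
          exact hy
        · exact absurd hx h
    · have hemp : sec C u x = ∅ := by
        rw [eq_empty_iff_forall_notMem]
        intro t ht
        exact hx ⟨_, ht, proj_line _ _⟩
      have h0 : botE C u x = 0 := by
        rw [botE, hemp, Real.sInf_empty]
      rw [h0]
      constructor
      · intro h
        exact Or.inr ⟨hx, h⟩
      · rintro (⟨y, ⟨hy, hyc⟩, hyx⟩ | ⟨h, h'⟩)
        · exact absurd ⟨y, hy, hyx⟩ hx
        · exact h'
  rw [h1]
  exact (hcl c).isClosed.measurableSet.union (hP.isClosed.measurableSet.compl.inter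
    (MeasurableSet.const _))

/-- The projections of the nondegenerate sections. -/
def nd (C : Set V) (u : V) : Set (ℝ ∙ u)ᗮ := {x | botE C u x < topE C u x}

lemma measurableSet_nd {C : Set V} (hC : IsCompact C) {u : V} (hu : ‖u‖ = 1) :
    MeasurableSet (nd C u) := measurableSet_lt (measurable_botE hC hu) (measurable_topE hC hu)

lemma nd_nonempty {C : Set V} {u : V} {x : (ℝ ∙ u)ᗮ} (hx : x ∈ nd C u) : (sec C u x).Nonempty := by
  rw [nonempty_iff_ne_empty]
  intro h
  have : botE C u x < topE C u x := hx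
  rw [botE, topE, h, Real.sInf_empty, Real.sSup_empty] at this
  exact lt_irrefl _ this

/-- Projections do not increase the Hausdorff measure. -/
lemma proj_measure {m : ℕ} (hm : Module.finrank ℝ V = m + 1) {u : V} (hu : ‖u‖ = 1) {S : Set V}
    {T : Set (ℝ ∙ u)ᗮ} (hT : T ⊆ (fun y => (ℝ ∙ u)ᗮ.orthogonalProjectionOnto y) '' S) :
    volume T ≤ μHE[m] S := by
  have hu0 : u ≠ 0 := by
    rintro rfl
    simp at hu
  have hr : Module.finrank ℝ (ℝ ∙ u)ᗮ = m := by
    have h1 := (ℝ ∙ u).finrank_add_finrank_orthogonal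
    rw [finrank_span_singleton hu0, hm] at h1
    omega
  rw [← InnerProductSpace.euclideanHausdorffMeasure_eq_volume, hr]
  refine (measure_mono hT).trans ?_
  rw [Measure.euclideanHausdorffMeasure_def, Measure.euclideanHausdorffMeasure_def]
  simp only [Measure.smul_apply]
  have h1 := ((ℝ ∙ u)ᗮ.lipschitzWith_orthogonalProjectionOnto).hausdorffMeasure_image_le
    (Nat.cast_nonneg (α := ℝ) m) S
  simp only [ENNReal.coe_one, ENNReal.one_rpow, one_mul] at h1
  gcongr

/-- The surface inequality. -/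
lemma surface {m : ℕ} (hm : Module.finrank ℝ V = m + 1) {C : Set V} (hC : IsCompact C)
    {u : V} (hu : ‖u‖ = 1) {F : V → ℝ≥0∞} (hF : Measurable F) :
    ∫⁻ x in nd C u, (F ((x : V) + topE C u x • u) + F ((x : V) + botE C u x • u))
      ≤ ∫⁻ y in frontier C, F y ∂μHE[m] := by
  have hmt := measurable_topE hC hu
  have hmb := measurable_botE hC hu
  have hndm := measurableSet_nd hC hu
  set Φt : (ℝ ∙ u)ᗮ → V := fun x => (x : V) + topE C u x • u with hΦt
  set Φb : (ℝ ∙ u)ᗮ → V := fun x => (x : V) + botE C u x • u with hΦb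
  have hΦtm : Measurable Φt := by fun_prop
  have hΦbm : Measurable Φb := by fun_prop
  set pr : V → (ℝ ∙ u)ᗮ := fun y => (ℝ ∙ u)ᗮ.orthogonalProjectionOnto y with hpr
  have hprm : Measurable pr := by fun_prop
  set Ut : Set V := {y | pr y ∈ nd C u ∧ ⟪u, y⟫_ℝ = topE C u (pr y)} with hUt
  set Ub : Set V := {y | pr y ∈ nd C u ∧ ⟪u, y⟫_ℝ = botE C u (pr y)} with hUb
  have hUtm : MeasurableSet Ut :=
    (hprm hndm).inter (measurableSet_eq_fun (by fun_prop) (hmt.comp hprm))
  have hUbm : MeasurableSet Ub :=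
    (hprm hndm).inter (measurableSet_eq_fun (by fun_prop) (hmb.comp hprm))
  have hdisj : Disjoint Ut Ub := by
    rw [Set.disjoint_left]
    rintro y ⟨hy1, hy2⟩ ⟨hy3, hy4⟩
    have : botE C u (pr y) < topE C u (pr y) := hy1
    rw [← hy2, ← hy4] at this
    exact lt_irrefl _ this
  have hsubt : Ut ⊆ frontier C := by
    rintro y ⟨hy1, hy2⟩
    have hsec := sec_compact hC hu (pr y)
    have hmem : topE C u (pr y) ∈ sec C u (pr y) := hsec.sSup_mem (nd_nonempty hy1)
    have hyC : y ∈ C := by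
      have h1 : (pr y : V) + topE C u (pr y) • u ∈ C := hmem
      rw [← hy2, decomp_line hu] at h1
      exact h1
    rw [hC.isClosed.frontier_eq]
    refine ⟨hyC, fun hint => ?_⟩
    have hcont : Continuous fun t : ℝ => (pr y : V) + t • u := by fun_prop
    have h1 : ∀ᶠ t in 𝓝 (topE C u (pr y)), (pr y : V) + t • u ∈ C := by
      have h2 : C ∈ 𝓝 ((pr y : V) + topE C u (pr y) • u) := by
        rw [← hy2, decomp_line hu]
        exact mem_interior_iff_mem_nhds.1 hint
      exact hcont.continuousAt.eventually h2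
    obtain ⟨t, ht, ht'⟩ := (h1.filter_mono nhdsWithin_le_nhds |>.and
      (self_mem_nhdsWithin (s := Ioi (topE C u (pr y))))).exists
    exact absurd (le_csSup hsec.bddAbove ht) (not_le.2 ht')
  have hsubb : Ub ⊆ frontier C := by
    rintro y ⟨hy1, hy2⟩
    have hsec := sec_compact hC hu (pr y)
    have hmem : botE C u (pr y) ∈ sec C u (pr y) := hsec.sInf_mem (nd_nonempty hy1)
    have hyC : y ∈ C := by
      have h1 : (pr y : V) + botE C u (pr y) • u ∈ C := hmem
      rw [← hy2, decomp_line hu] at h1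
      exact h1
    rw [hC.isClosed.frontier_eq]
    refine ⟨hyC, fun hint => ?_⟩
    have hcont : Continuous fun t : ℝ => (pr y : V) + t • u := by fun_prop
    have h1 : ∀ᶠ t in 𝓝 (botE C u (pr y)), (pr y : V) + t • u ∈ C := by
      have h2 : C ∈ 𝓝 ((pr y : V) + botE C u (pr y) • u) := by
        rw [← hy2, decomp_line hu]
        exact mem_interior_iff_mem_nhds.1 hint
      exact hcont.continuousAt.eventually h2
    obtain ⟨t, ht, ht'⟩ := (h1.filter_mono nhdsWithin_le_nhds |>.and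
      (self_mem_nhdsWithin (s := Iio (botE C u (pr y))))).exists
    exact absurd (csInf_le hsec.bddBelow ht) (not_le.2 ht')
  have hmapt : (volume.restrict (nd C u)).map Φt ≤ (μHE[m] : Measure V).restrict Ut := by
    refine Measure.le_iff.2 fun E hE => ?_
    rw [Measure.map_apply hΦtm hE, Measure.restrict_apply (hΦtm hE), Measure.restrict_apply hE]
    refine proj_measure hm hu ?_
    rintro x ⟨hx1, hx2⟩
    refine ⟨Φt x, ⟨hx1, ?_, ?_⟩, proj_line _ _⟩
    · show (ℝ ∙ u)ᗮ.orthogonalProjectionOnto (Φt x) ∈ nd C u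
      rw [hΦt, proj_line]
      exact hx2
    · show ⟪u, Φt x⟫_ℝ = topE C u ((ℝ ∙ u)ᗮ.orthogonalProjectionOnto (Φt x))
      rw [hΦt]
      simp only
      rw [proj_line, inner_line hu]
  have hmapb : (volume.restrict (nd C u)).map Φb ≤ (μHE[m] : Measure V).restrict Ub := by
    refine Measure.le_iff.2 fun E hE => ?_
    rw [Measure.map_apply hΦbm hE, Measure.restrict_apply (hΦbm hE), Measure.restrict_apply hE]
    refine proj_measure hm hu ?_
    rintro x ⟨hx1, hx2⟩
    refine ⟨Φb x, ⟨hx1, ?_, ?_⟩, proj_line _ _⟩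
    · show (ℝ ∙ u)ᗮ.orthogonalProjectionOnto (Φb x) ∈ nd C u
      rw [hΦb, proj_line]
      exact hx2
    · show ⟪u, Φb x⟫_ℝ = botE C u ((ℝ ∙ u)ᗮ.orthogonalProjectionOnto (Φb x))
      rw [hΦb]
      simp only
      rw [proj_line, inner_line hu]
  calc ∫⁻ x in nd C u, (F (Φt x) + F (Φb x))
      = (∫⁻ x in nd C u, F (Φt x)) + ∫⁻ x in nd C u, F (Φb x) :=
        lintegral_add_left (hF.comp hΦtm) _
    _ = (∫⁻ y, F y ∂((volume.restrict (nd C u)).map Φt)) +
          ∫⁻ y, F y ∂((volume.restrict (nd C u)).map Φb) := by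
        rw [lintegral_map hF hΦtm, lintegral_map hF hΦbm]
    _ ≤ (∫⁻ y in Ut, F y ∂μHE[m]) + ∫⁻ y in Ub, F y ∂μHE[m] :=
        add_le_add (lintegral_mono' hmapt le_rfl) (lintegral_mono' hmapb le_rfl)
    _ = ∫⁻ y in Ut ∪ Ub, F y ∂μHE[m] := (lintegral_union hUbm hdisj).symm
    _ ≤ ∫⁻ y in frontier C, F y ∂μHE[m] := lintegral_mono_set (union_subset hsubt hsubb)

lemma convexOn_line {G : V → ℝ} (hG : ConvexOn ℝ univ G) (x u : V) :
    ConvexOn ℝ univ (fun t : ℝ => G (x + t • u)) := by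
  refine ⟨convex_univ, fun s _ t _ a b ha hb hab => ?_⟩
  have h1 := hG.2 (mem_univ (x + s • u)) (mem_univ (x + t • u)) ha hb hab
  have h2 : a • (x + s • u) + b • (x + t • u) = x + (a • s + b • t) • u := by
    have : x = (a + b) • x := by rw [hab, one_smul]
    nth_rw 3 [this]
    simp only [smul_add, add_smul, smul_smul, smul_eq_mul]
    abel
  rwa [h2] at h1

lemma lintegral_sec {C : Set V} (hC : IsCompact C) {u : V} (hu : ‖u‖ = 1) (f : V → ℝ≥0∞)
    (x : (ℝ ∙ u)ᗮ) : ∫⁻ t : ℝ, C.indicator f ((x : V) + t • u)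
      = ∫⁻ t in sec C u x, f ((x : V) + t • u) := by
  rw [← lintegral_indicator (sec_compact hC hu x).isClosed.measurableSet]
  rfl

/-- The integral over a convex body is controlled by the integrals over the nondegenerate
sections. -/
lemma lintegral_le_nd {C : Set V} (hC : IsCompact C) (hCc : Convex ℝ C) {u : V} (hu : ‖u‖ = 1)
    {f : V → ℝ≥0∞} (hf : Measurable f) (B : (ℝ ∙ u)ᗮ → ℝ≥0∞)
    (hB : ∀ x ∈ nd C u, ∫⁻ t in Icc (botE C u x) (topE C u x), f ((x : V) + t • u) ≤ B x) :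
    ∫⁻ y in C, f y ≤ ∫⁻ x in nd C u, B x := by
  rw [← lintegral_indicator hC.isClosed.measurableSet,
    lintegral_lines hu (hf.indicator hC.isClosed.measurableSet),
    ← lintegral_indicator (measurableSet_nd hC hu)]
  refine lintegral_mono fun x => ?_
  rw [lintegral_sec hC hu]
  rcases (sec C u x).eq_empty_or_nonempty with he | hne
  · rw [he]
    simp
  · rw [sec_eq_Icc hC hCc hu x hne]
    by_cases hx : x ∈ nd C u
    · rw [indicator_of_mem hx]
      exact hB x hx
    · rw [indicator_of_notMem hx]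
      have h1 : topE C u x ≤ botE C u x := not_lt.1 hx
      have h2 : volume (Icc (botE C u x) (topE C u x)) = 0 := by
        rw [Real.volume_Icc, ENNReal.ofReal_eq_zero]
        linarith
      rw [Measure.restrict_eq_zero.2 h2]
      simp

lemma dir_variation {m : ℕ} (hm : Module.finrank ℝ V = m + 1) {C : Set V} (hC : IsCompact C)
    (hCc : Convex ℝ C) {u : V} (hu : ‖u‖ = 1) {G : V → ℝ} (hG : ConvexOn ℝ univ G)
    (h0 : ∀ y, 0 ≤ G y) :
    ∫⁻ y in C, ‖fderiv ℝ G y u‖ₑ ≤ ∫⁻ y in frontier C, ENNReal.ofReal (G y) ∂μHE[m] := by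
  have hGc : Continuous G := continuousOn_univ.1 (hG.continuousOn isOpen_univ)
  refine (lintegral_le_nd hC hCc hu (measurable_fderiv_apply_const ℝ G u).enorm
    (fun x => ENNReal.ofReal (G ((x : V) + topE C u x • u)) +
      ENNReal.ofReal (G ((x : V) + botE C u x • u))) fun x hx => ?_).trans
    (surface hm hC hu (by fun_prop))
  have hg := convexOn_line hG (x : V) u
  refine le_trans ?_ ((lintegral_deriv_convex hg (fun t => h0 _) (le_of_lt hx)).trans
    (le_of_eq (add_comm _ _)))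
  refine lintegral_mono fun t => ?_
  by_cases hd : DifferentiableAt ℝ G ((x : V) + t • u)
  · have h1 : HasDerivAt (fun t : ℝ => (x : V) + t • u) u t := by
      have := ((hasDerivAt_id t).smul_const u).const_add (x : V)
      simpa using this
    have h2 := hd.hasFDerivAt.comp_hasDerivAt t h1
    have h3 : deriv (fun t : ℝ => G ((x : V) + t • u)) t = fderiv ℝ G ((x : V) + t • u) u :=
      h2.deriv
    rw [h3]
  · rw [fderiv_zero_of_not_differentiableAt hd]
    simp

lemma dir_hh {m : ℕ} (hm : Module.finrank ℝ V = m + 1) {C : Set V} (hC : IsCompact C)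
    (hCc : Convex ℝ C) {u : V} (hu : ‖u‖ = 1) {h : V → ℝ} (hh : ConvexOn ℝ univ h)
    (h0 : ∀ y, 0 ≤ h y) {l : ℝ} (hl : 0 < l) :
    2 * ∫⁻ y in C, ENNReal.ofReal (h y)
      ≤ ∫⁻ y in frontier C, ENNReal.ofReal (l * ⟪u, y⟫_ℝ ^ 2 + h y ^ 2 / l) ∂μHE[m] := by
  have hhc : Continuous h := continuousOn_univ.1 (hh.continuousOn isOpen_univ)
  rw [← lintegral_const_mul _ (by fun_prop)]
  refine (lintegral_le_nd hC hCc hu (by fun_prop)
    (fun x => ENNReal.ofReal (l * ⟪u, (x : V) + topE C u x • u⟫_ℝ ^ 2 +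
        h ((x : V) + topE C u x • u) ^ 2 / l) +
      ENNReal.ofReal (l * ⟪u, (x : V) + botE C u x • u⟫_ℝ ^ 2 +
        h ((x : V) + botE C u x • u) ^ 2 / l)) fun x hx => ?_).trans
    (surface hm hC hu (F := fun y => ENNReal.ofReal (l * ⟪u, y⟫_ℝ ^ 2 + h y ^ 2 / l))
      (by fun_prop))
  rw [lintegral_const_mul _ (by fun_prop)]
  have hg := convexOn_line hh (x : V) u
  refine (lintegral_convex hg (fun t => h0 _) (le_of_lt hx)).trans ?_
  rw [inner_line hu, inner_line hu, ← ENNReal.ofReal_add (by positivity) (by positivity)]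
  refine ENNReal.ofReal_le_ofReal ?_
  set β := topE C u x
  set α := botE C u x
  set p := h ((x : V) + β • u)
  set q := h ((x : V) + α • u)
  have h1 : 0 ≤ (l * (β - α) - (q + p)) ^ 2 / (2 * l) := by positivity
  have h2 : (l * (β - α) - (q + p)) ^ 2 / (2 * l)
      = l * (β - α) ^ 2 / 2 - (β - α) * (q + p) + (q + p) ^ 2 / (2 * l) := by
    field_simp
    ring
  have h3 : l * (β - α) ^ 2 / 2 ≤ l * β ^ 2 + l * α ^ 2 := by nlinarith [sq_nonneg (β + α)]
  have h4 : (q + p) ^ 2 / (2 * l) ≤ p ^ 2 / l + q ^ 2 / l := by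
    rw [← add_div, div_le_div_iff₀ (by positivity) hl]
    nlinarith [sq_nonneg (q - p)]
  linarith

end Lines

/-! ### The family of directions -/

section Directions

variable {d : ℕ}

noncomputable def dirA (i j : Fin d) : EuclideanSpace ℝ (Fin d) :=
  if i = j then EuclideanSpace.single i 1
  else (√2)⁻¹ • (EuclideanSpace.single i 1 + EuclideanSpace.single j 1)

noncomputable def dirB (i j : Fin d) : EuclideanSpace ℝ (Fin d) :=
  if i = j then EuclideanSpace.single i 1
  else (√2)⁻¹ • (EuclideanSpace.single i 1 - EuclideanSpace.single j 1)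

lemma norm_dirA (i j : Fin d) : ‖dirA i j‖ = 1 := by
  unfold dirA
  split_ifs with hij
  · simp
  · rw [norm_smul]
    have h1 : ‖(EuclideanSpace.single i 1 + EuclideanSpace.single j 1 :
        EuclideanSpace ℝ (Fin d))‖ = √2 := by
      rw [← Real.sqrt_sq (norm_nonneg _), norm_add_sq_real]
      simp [EuclideanSpace.inner_single_left, hij]
      norm_num
    rw [h1, Real.norm_of_nonneg (by positivity)]
    exact inv_mul_cancel₀ (by positivity)

lemma norm_dirB (i j : Fin d) : ‖dirB i j‖ = 1 := by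
  unfold dirB
  split_ifs with hij
  · simp
  · rw [norm_smul]
    have h1 : ‖(EuclideanSpace.single i 1 - EuclideanSpace.single j 1 :
        EuclideanSpace ℝ (Fin d))‖ = √2 := by
      rw [← Real.sqrt_sq (norm_nonneg _), norm_sub_sq_real]
      simp [EuclideanSpace.inner_single_left, hij]
      norm_num
    rw [h1, Real.norm_of_nonneg (by positivity)]
    exact inv_mul_cancel₀ (by positivity)

lemma abs_ge {t : ℝ} (ht : 0 < t) (x : ℝ) :
    3 / (2 * t) * x ^ 2 - 1 / (2 * t ^ 3) * x ^ 4 ≤ |x| := by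
  have h1 : x ^ 2 = |x| ^ 2 := (sq_abs x).symm
  have h2 : x ^ 4 = |x| ^ 4 := by
    rw [show x ^ 4 = (x ^ 2) ^ 2 by ring, h1]
    ring
  rw [h1, h2]
  set y := |x| with hy
  have hy0 : 0 ≤ y := abs_nonneg x
  have h3 : 0 ≤ y * (y - t) ^ 2 * (y + 2 * t) / (2 * t ^ 3) := by positivity
  have h4 : y * (y - t) ^ 2 * (y + 2 * t) / (2 * t ^ 3)
      = y - (3 / (2 * t) * y ^ 2 - 1 / (2 * t ^ 3) * y ^ 4) := by
    field_simp
    ring
  linarith

lemma dir_sum (hd : 2 ≤ d) (v : Fin d → ℝ) :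
    16 * d / 7 * √(∑ i, v i ^ 2) ≤
      ∑ i, ∑ j, (if i = j then |v i| + |v i| else |(√2)⁻¹ * (v i + v j)| +
        |(√2)⁻¹ * (v i - v j)|) := by
  have hd' : (2 : ℝ) ≤ d := by exact_mod_cast hd
  set S := ∑ i, v i ^ 2 with hS
  have hS0 : 0 ≤ S := Finset.sum_nonneg fun i _ => sq_nonneg _
  set r := √S with hr
  have hr2 : r ^ 2 = S := Real.sq_sqrt hS0
  rcases (Real.sqrt_nonneg S).eq_or_lt with h | h
  · rw [← hr] at h
    rw [← h, mul_zero]
    refine Finset.sum_nonneg fun i _ => Finset.sum_nonneg fun j _ => ?_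
    split_ifs <;> positivity
  · rw [← hr] at h
    set t := 7 / 8 * r with ht
    have ht0 : 0 < t := by positivity
    set Q := ∑ i, v i ^ 4 with hQ
    have hQS : Q ≤ S ^ 2 := by
      rw [hQ, hS, sq, Finset.sum_mul_sum]
      refine Finset.sum_le_sum fun i _ => ?_
      have := Finset.single_le_sum (f := fun j => v i ^ 2 * v j ^ 2) (fun j _ => by positivity)
        (Finset.mem_univ i)
      refine le_trans (le_of_eq ?_) this
      ring
    have h2 : ((√2)⁻¹ : ℝ) ^ 2 = 1 / 2 := by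
      rw [inv_pow, Real.sq_sqrt (by norm_num)]
      norm_num
    have h4 : ((√2)⁻¹ : ℝ) ^ 4 = 1 / 4 := by
      rw [show ((√2)⁻¹ : ℝ) ^ 4 = (((√2)⁻¹ : ℝ) ^ 2) ^ 2 by ring, h2]
      norm_num
    have hterm : ∀ i j : Fin d, 3 / (2 * t) * (v i ^ 2 + v j ^ 2) -
        1 / (2 * t ^ 3) * ((v i ^ 4 + 6 * (v i ^ 2 * v j ^ 2) + v j ^ 4) / 2 -
          if i = j then 2 * v i ^ 4 else 0)
        ≤ (if i = j then |v i| + |v i| else |(√2)⁻¹ * (v i + v j)| +
          |(√2)⁻¹ * (v i - v j)|) := by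
      intro i j
      split_ifs with hij
      · subst hij
        have := abs_ge ht0 (v i)
        refine le_trans (le_of_eq ?_) (add_le_add this this)
        ring
      · have a1 := abs_ge ht0 ((√2)⁻¹ * (v i + v j))
        have a2 := abs_ge ht0 ((√2)⁻¹ * (v i - v j))
        refine le_trans (le_of_eq ?_) (add_le_add a1 a2)
        simp only [mul_pow, h2, h4]
        ring
    refine le_trans ?_ (Finset.sum_le_sum fun i _ => Finset.sum_le_sum fun j _ => hterm i j)
    have e1 : ∑ i : Fin d, ∑ j : Fin d, (v i ^ 2 + v j ^ 2) = 2 * d * S := by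
      simp only [Finset.sum_add_distrib, Finset.sum_const, Finset.card_univ, Fintype.card_fin,
        nsmul_eq_mul, ← Finset.mul_sum, ← hS]
      ring
    have e2 : ∑ i : Fin d, ∑ j : Fin d, ((v i ^ 4 + 6 * (v i ^ 2 * v j ^ 2) + v j ^ 4) / 2 -
          if i = j then 2 * v i ^ 4 else 0) = (d - 2) * Q + 3 * S ^ 2 := by
      simp only [Finset.sum_sub_distrib, ← Finset.sum_div, Finset.sum_add_distrib,
        Finset.sum_const, Finset.card_univ, Fintype.card_fin, nsmul_eq_mul, ← Finset.mul_sum,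
        ← hQ, ← hS, Finset.sum_ite_eq, Finset.mem_univ, if_true, ← Finset.sum_mul]
      ring
    have e3 : ∑ i : Fin d, ∑ j : Fin d, (3 / (2 * t) * (v i ^ 2 + v j ^ 2) -
        1 / (2 * t ^ 3) * ((v i ^ 4 + 6 * (v i ^ 2 * v j ^ 2) + v j ^ 4) / 2 -
          if i = j then 2 * v i ^ 4 else 0))
        = 3 / (2 * t) * (2 * d * S) - 1 / (2 * t ^ 3) * ((d - 2) * Q + 3 * S ^ 2) := by
      rw [← e1, ← e2, Finset.mul_sum, Finset.mul_sum, ← Finset.sum_sub_distrib]
      refine Finset.sum_congr rfl fun i _ => ?_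
      rw [Finset.mul_sum, Finset.mul_sum, ← Finset.sum_sub_distrib]
    rw [e3]
    have h5 : (d - 2) * Q + 3 * S ^ 2 ≤ (d + 1) * S ^ 2 := by nlinarith
    have h6 : 1 / (2 * t ^ 3) * ((d - 2) * Q + 3 * S ^ 2) ≤
        1 / (2 * t ^ 3) * ((d + 1) * S ^ 2) :=
      mul_le_mul_of_nonneg_left h5 (by positivity)
    have h7 : 3 / (2 * t) * (2 * d * S) = 24 * d / 7 * r := by
      rw [← hr2, ht]
      field_simp
      ring
    have h8 : 1 / (2 * t ^ 3) * ((d + 1) * S ^ 2) = 256 / 343 * (d + 1) * r := by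
      rw [← hr2, ht]
      field_simp
      ring
    rw [h7]
    rw [h8] at h6
    nlinarith

lemma dir_enorm (hd : 2 ≤ d) (L : EuclideanSpace ℝ (Fin d) →L[ℝ] ℝ) :
    ENNReal.ofReal (16 * d / 7) * ‖L‖ₑ ≤ ∑ i, ∑ j, (‖L (dirA i j)‖ₑ + ‖L (dirB i j)‖ₑ) := by
  set v : Fin d → ℝ := fun i => L (EuclideanSpace.single i 1) with hv
  have h1 : ‖L‖ = √(∑ i, v i ^ 2) := by
    have h2 : ‖L‖ = ‖(InnerProductSpace.toDual ℝ (EuclideanSpace ℝ (Fin d))).symm L‖ := by
      rw [LinearIsometryEquiv.norm_map]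
    rw [h2, EuclideanSpace.norm_eq]
    congr 1
    refine Finset.sum_congr rfl fun i _ => ?_
    have h3 : L (EuclideanSpace.single i 1) =
        ((InnerProductSpace.toDual ℝ (EuclideanSpace ℝ (Fin d))).symm L) i := by
      rw [← InnerProductSpace.toDual_symm_apply (x := EuclideanSpace.single i (1 : ℝ)) (y := L)]
      rw [EuclideanSpace.inner_single_right]
      simp
    rw [hv]
    simp only
    rw [h3, Real.norm_eq_abs, sq_abs]
  have h4 := dir_sum hd v
  rw [← h1] at h4
  have h5 : ∀ i j, |L (dirA i j)| + |L (dirB i j)| = (if i = j then |v i| + |v i| else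
      |(√2)⁻¹ * (v i + v j)| + |(√2)⁻¹ * (v i - v j)|) := by
    intro i j
    unfold dirA dirB
    split_ifs with hij
    · rfl
    · rw [map_smul, map_smul, map_add, map_sub]
      rfl
  calc ENNReal.ofReal (16 * d / 7) * ‖L‖ₑ = ENNReal.ofReal (16 * d / 7 * ‖L‖) := by
        rw [ENNReal.ofReal_mul (by positivity), ofReal_norm]
    _ ≤ ENNReal.ofReal (∑ i, ∑ j, (|L (dirA i j)| + |L (dirB i j)|)) := by
        refine ENNReal.ofReal_le_ofReal (h4.trans (le_of_eq ?_))
        simp only [h5]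
    _ = ∑ i, ∑ j, (‖L (dirA i j)‖ₑ + ‖L (dirB i j)‖ₑ) := by
        rw [ENNReal.ofReal_sum_of_nonneg (fun i _ => Finset.sum_nonneg fun j _ => by positivity)]
        refine Finset.sum_congr rfl fun i _ => ?_
        rw [ENNReal.ofReal_sum_of_nonneg (fun j _ => by positivity)]
        refine Finset.sum_congr rfl fun j _ => ?_
        rw [ENNReal.ofReal_add (by positivity) (by positivity), ← Real.enorm_eq_ofReal_abs,
          ← Real.enorm_eq_ofReal_abs]

end Directions

theorem main (m d : ℕ) (hd : d = m + 1) (hm : 1 ≤ m) (h : EuclideanSpace ℝ (Fin d) → ℝ)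
    (hh : ConvexOn ℝ univ h) (h0 : ∀ y, 0 ≤ h y) (C : Set (EuclideanSpace ℝ (Fin d)))
    (hC : IsCompact C) (hCc : Convex ℝ C) :
    ENNReal.ofReal (2 / (d : ℝ)) *
        ∫⁻ z in C, ENNReal.ofReal (h z * √(1 + ‖gradient h z‖ ^ 2))
      ≤ ∫⁻ y in frontier C, ENNReal.ofReal (‖y‖ ^ 2 + h y ^ 2) ∂μHE[m] := by
  have hd2 : 2 ≤ d := by omega
  have hd2' : (2 : ℝ) ≤ d := by exact_mod_cast hd2
  have hd0 : (0 : ℝ) < d := by linarith
  have hfr : Module.finrank ℝ (EuclideanSpace ℝ (Fin d)) = m + 1 := by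
    rw [finrank_euclideanSpace, Fintype.card_fin, hd]
  have hhc : Continuous h := continuousOn_univ.1 (hh.continuousOn isOpen_univ)
  -- the function `G = h²`
  set G : EuclideanSpace ℝ (Fin d) → ℝ := fun y => h y ^ 2 with hG
  have hGc : ConvexOn ℝ univ G := hh.pow (fun y _ => h0 y) 2
  have hG0 : ∀ y, 0 ≤ G y := fun y => sq_nonneg _
  set μ : Measure (EuclideanSpace ℝ (Fin d)) := (μHE[m]).restrict (frontier C) with hμ
  set I := ∫⁻ z in C, ENNReal.ofReal (h z) with hI
  set J := ∫⁻ z in C, ‖fderiv ℝ G z‖ₑ with hJ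
  -- Step A
  have hA : ENNReal.ofReal (2 * d) * I ≤
      ∫⁻ y, ENNReal.ofReal ((d : ℝ) ^ 2 * ‖y‖ ^ 2 + h y ^ 2 / d) ∂μ := by
    have h1 : ∀ i : Fin d, 2 * I ≤ ∫⁻ y, ENNReal.ofReal ((d : ℝ) ^ 2 *
        ⟪EuclideanSpace.single i 1, y⟫_ℝ ^ 2 + h y ^ 2 / (d : ℝ) ^ 2) ∂μ := fun i =>
      dir_hh hfr hC hCc (by simp) hh h0 (by positivity)
    have h2 : ∑ i : Fin d, 2 * I ≤ ∑ i : Fin d, ∫⁻ y, ENNReal.ofReal ((d : ℝ) ^ 2 *
        ⟪EuclideanSpace.single i 1, y⟫_ℝ ^ 2 + h y ^ 2 / (d : ℝ) ^ 2) ∂μ :=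
      Finset.sum_le_sum fun i _ => h1 i
    rw [← lintegral_finsetSum _ (fun i _ => by fun_prop)] at h2
    have h3 : ∑ i : Fin d, 2 * I = ENNReal.ofReal (2 * d) * I := by
      rw [Finset.sum_const, Finset.card_univ, Fintype.card_fin, nsmul_eq_mul,
        ENNReal.ofReal_mul (by norm_num), ENNReal.ofReal_natCast, ENNReal.ofReal_ofNat]
      ring
    rw [h3] at h2
    refine h2.trans (le_of_eq (lintegral_congr fun y => ?_))
    rw [← ENNReal.ofReal_sum_of_nonneg (fun i _ => by positivity)]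
    congr 1
    rw [Finset.sum_add_distrib, ← Finset.mul_sum, EuclideanSpace.norm_sq_eq]
    congr 1
    · congr 1
      refine Finset.sum_congr rfl fun i _ => ?_
      simp [EuclideanSpace.inner_single_left]
    · rw [Finset.sum_const, Finset.card_univ, Fintype.card_fin, nsmul_eq_mul]
      field_simp
  have hA' : ENNReal.ofReal (2 / d) * I ≤
      ∫⁻ y, ENNReal.ofReal (‖y‖ ^ 2 + h y ^ 2 / (d : ℝ) ^ 3) ∂μ := by
    calc ENNReal.ofReal (2 / d) * I
        = ENNReal.ofReal (1 / (d : ℝ) ^ 2) * (ENNReal.ofReal (2 * d) * I) := by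
          rw [← mul_assoc, ← ENNReal.ofReal_mul (by positivity)]
          congr 2
          field_simp
      _ ≤ ENNReal.ofReal (1 / (d : ℝ) ^ 2) *
            ∫⁻ y, ENNReal.ofReal ((d : ℝ) ^ 2 * ‖y‖ ^ 2 + h y ^ 2 / d) ∂μ := by
          gcongr
      _ = ∫⁻ y, ENNReal.ofReal (‖y‖ ^ 2 + h y ^ 2 / (d : ℝ) ^ 3) ∂μ := by
          rw [← lintegral_const_mul _ (by fun_prop)]
          refine lintegral_congr fun y => ?_
          rw [← ENNReal.ofReal_mul (by positivity)]
          congr 1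
          field_simp
  -- Step B
  have hB : ENNReal.ofReal (16 * d / 7) * J ≤
      ENNReal.ofReal (2 * (d : ℝ) ^ 2) * ∫⁻ y, ENNReal.ofReal (h y ^ 2) ∂μ := by
    have h1 : ∀ u : EuclideanSpace ℝ (Fin d), ‖u‖ = 1 →
        ∫⁻ z in C, ‖fderiv ℝ G z u‖ₑ ≤ ∫⁻ y, ENNReal.ofReal (h y ^ 2) ∂μ := fun u hu =>
      dir_variation hfr hC hCc hu hGc hG0
    have hmeas : ∀ u : EuclideanSpace ℝ (Fin d), Measurable fun z => ‖fderiv ℝ G z u‖ₑ :=
      fun u => (measurable_fderiv_apply_const ℝ G u).enorm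
    calc ENNReal.ofReal (16 * d / 7) * J
        = ∫⁻ z in C, ENNReal.ofReal (16 * d / 7) * ‖fderiv ℝ G z‖ₑ := by
          rw [lintegral_const_mul _ (measurable_fderiv ℝ G).enorm]
      _ ≤ ∫⁻ z in C, ∑ i, ∑ j, (‖fderiv ℝ G z (dirA i j)‖ₑ + ‖fderiv ℝ G z (dirB i j)‖ₑ) :=
          lintegral_mono fun z => dir_enorm hd2 _
      _ = ∑ i, ∑ j, ((∫⁻ z in C, ‖fderiv ℝ G z (dirA i j)‖ₑ) +
            ∫⁻ z in C, ‖fderiv ℝ G z (dirB i j)‖ₑ) := by
          have hm2 : ∀ i j : Fin d, Measurable fun z =>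
              ‖fderiv ℝ G z (dirA i j)‖ₑ + ‖fderiv ℝ G z (dirB i j)‖ₑ :=
            fun i j => (hmeas _).add (hmeas _)
          have hm3 : ∀ i : Fin d, Measurable fun z => ∑ j : Fin d,
              (‖fderiv ℝ G z (dirA i j)‖ₑ + ‖fderiv ℝ G z (dirB i j)‖ₑ) :=
            fun i => Finset.measurable_fun_sum _ fun j _ => hm2 i j
          rw [lintegral_finsetSum _ (fun i _ => hm3 i)]
          refine Finset.sum_congr rfl fun i _ => ?_
          rw [lintegral_finsetSum _ (fun j _ => hm2 i j)]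
          refine Finset.sum_congr rfl fun j _ => ?_
          rw [lintegral_add_left (hmeas _)]
      _ ≤ ∑ i : Fin d, ∑ j : Fin d, ((∫⁻ y, ENNReal.ofReal (h y ^ 2) ∂μ) +
            ∫⁻ y, ENNReal.ofReal (h y ^ 2) ∂μ) :=
          Finset.sum_le_sum fun i _ => Finset.sum_le_sum fun j _ =>
            add_le_add (h1 _ (norm_dirA i j)) (h1 _ (norm_dirB i j))
      _ = ENNReal.ofReal (2 * (d : ℝ) ^ 2) * ∫⁻ y, ENNReal.ofReal (h y ^ 2) ∂μ := by
          rw [Finset.sum_const, Finset.sum_const, Finset.card_univ, Fintype.card_fin,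
            nsmul_eq_mul, nsmul_eq_mul, ENNReal.ofReal_mul (by norm_num),
            ENNReal.ofReal_pow (by positivity), ENNReal.ofReal_natCast, ENNReal.ofReal_ofNat]
          ring
  have hB' : ENNReal.ofReal (1 / d) * J ≤
      ∫⁻ y, ENNReal.ofReal (7 / 8 * h y ^ 2) ∂μ := by
    calc ENNReal.ofReal (1 / d) * J
        = ENNReal.ofReal (7 / (16 * (d : ℝ) ^ 2)) * (ENNReal.ofReal (16 * d / 7) * J) := by
          rw [← mul_assoc, ← ENNReal.ofReal_mul (by positivity)]
          congr 2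
          field_simp
      _ ≤ ENNReal.ofReal (7 / (16 * (d : ℝ) ^ 2)) *
            (ENNReal.ofReal (2 * (d : ℝ) ^ 2) * ∫⁻ y, ENNReal.ofReal (h y ^ 2) ∂μ) := by
          gcongr
      _ = ∫⁻ y, ENNReal.ofReal (7 / 8 * h y ^ 2) ∂μ := by
          rw [← mul_assoc, ← ENNReal.ofReal_mul (by positivity),
            ← lintegral_const_mul _ (by fun_prop)]
          refine lintegral_congr fun y => ?_
          rw [← ENNReal.ofReal_mul (by positivity)]
          congr 1
          field_simp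
          ring
  -- the pointwise estimate
  have hpt : ∀ z, h z * √(1 + ‖gradient h z‖ ^ 2) ≤ h z + 1 / 2 * ‖fderiv ℝ G z‖ := by
    intro z
    have hs : √(1 + ‖gradient h z‖ ^ 2) ≤ 1 + ‖gradient h z‖ := by
      rw [Real.sqrt_le_left (by positivity)]
      nlinarith [norm_nonneg (gradient h z)]
    have hgn : ‖gradient h z‖ = ‖fderiv ℝ h z‖ := by
      rw [gradient, LinearIsometryEquiv.norm_map]
    by_cases hd : DifferentiableAt ℝ h z
    · have h1 : fderiv ℝ G z = (2 * h z) • fderiv ℝ h z := by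
        have := (hd.hasFDerivAt.pow 2).fderiv
        simp only [nsmul_eq_mul, Nat.cast_ofNat, Nat.add_one_sub_one, pow_one] at this
        exact this
      rw [h1, norm_smul, Real.norm_of_nonneg (by linarith [h0 z])]
      rw [hgn] at hs ⊢
      nlinarith [h0 z, mul_le_mul_of_nonneg_left hs (h0 z)]
    · have h1 : gradient h z = 0 := by
        rw [gradient, fderiv_zero_of_not_differentiableAt hd, map_zero]
      rw [h1]
      simp only [norm_zero]
      norm_num
  calc ENNReal.ofReal (2 / d) * ∫⁻ z in C, ENNReal.ofReal (h z * √(1 + ‖gradient h z‖ ^ 2))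
      ≤ ENNReal.ofReal (2 / d) * ∫⁻ z in C,
          (ENNReal.ofReal (h z) + ENNReal.ofReal (1 / 2) * ‖fderiv ℝ G z‖ₑ) := by
        gcongr with z
        refine (ENNReal.ofReal_le_ofReal (hpt z)).trans (le_of_eq ?_)
        rw [ENNReal.ofReal_add (h0 z) (by positivity), ENNReal.ofReal_mul (by norm_num),
          ofReal_norm]
    _ = ENNReal.ofReal (2 / d) * I + ENNReal.ofReal (1 / d) * J := by
        rw [lintegral_add_left (by fun_prop), mul_add,
          lintegral_const_mul _ (measurable_fderiv ℝ G).enorm, ← mul_assoc,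
          ← ENNReal.ofReal_mul (by positivity)]
        congr 3
        field_simp
    _ ≤ (∫⁻ y, ENNReal.ofReal (‖y‖ ^ 2 + h y ^ 2 / (d : ℝ) ^ 3) ∂μ) +
          ∫⁻ y, ENNReal.ofReal (7 / 8 * h y ^ 2) ∂μ := add_le_add hA' hB'
    _ = ∫⁻ y, (ENNReal.ofReal (‖y‖ ^ 2 + h y ^ 2 / (d : ℝ) ^ 3) +
          ENNReal.ofReal (7 / 8 * h y ^ 2)) ∂μ := by
        rw [lintegral_add_left (by fun_prop)]
    _ ≤ ∫⁻ y, ENNReal.ofReal (‖y‖ ^ 2 + h y ^ 2) ∂μ := by
        refine lintegral_mono fun y => ?_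
        rw [← ENNReal.ofReal_add (by positivity) (by positivity)]
        refine ENNReal.ofReal_le_ofReal ?_
        have h1 : h y ^ 2 / (d : ℝ) ^ 3 ≤ h y ^ 2 / 8 := by
          have : (8 : ℝ) ≤ (d : ℝ) ^ 3 := by
            calc (8 : ℝ) = 2 ^ 3 := by norm_num
              _ ≤ (d : ℝ) ^ 3 := by gcongr
          gcongr
        linarith

/-- **The boundary inequality holds**: for all `n ≥ 3`, all non-negative convex functions `h` on
`ℝ ^ (n - 1)` and all compact convex sets `C`,
`∫_{∂C} (|y|² + h(y)²) dH^{n-2}(y) ≥ 2 / (n - 1) ∫_C h √(1 + |∇h|²) dz`. -/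
theorem result (n : ℕ) (hn : 3 ≤ n) (h : EuclideanSpace ℝ (Fin (n - 1)) → ℝ)
    (hh : ConvexOn ℝ univ h) (h0 : ∀ y, 0 ≤ h y) (C : Set (EuclideanSpace ℝ (Fin (n - 1))))
    (hC : IsCompact C) (hCc : Convex ℝ C) :
    ENNReal.ofReal (2 / ((n : ℝ) - 1)) *
        ∫⁻ z in C, ENNReal.ofReal (h z * √(1 + ‖gradient h z‖ ^ 2))
      ≤ ∫⁻ y in frontier C, ENNReal.ofReal (‖y‖ ^ 2 + h y ^ 2) ∂μHE[n - 2] := by
  have h1 := main (n - 2) (n - 1) (by omega) (by omega) h hh h0 C hC hCc
  have h2 : ((n - 1 : ℕ) : ℝ) = (n : ℝ) - 1 := by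
    rw [Nat.cast_sub (by omega)]
    simp
  rw [h2] at h1
  exact h1

end Pool.Agent.Results.MP_e9cb08_gt.BoundaryInequality
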